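import Pool.Agent.W2helper22.MG.Stm

/-!
# Piece TEST of project MG
-/

set_option autoImplicit false

namespace Pool.Agent.W2helper98.MG

open Finset Filter Pool.Agent.W2helper86.LG Pool.Agent.W2helper22.AL
open Pool.Agent.W2helper22.MG

section

variable {I : Type} {s : ℕ} {F : Set ((I → Bool) → Bool)}

theorem Mo_mono (h : Mo s F) {s' : ℕ} {F' : Set ((I → Bool) → Bool)} (hs : s ≤ s')
    (hF : F' ⊆ F) : Mo s' F' := by
  refine Av.mono h hs (fun _ => le_rfl) ?_
  rintro ⟨q, l⟩ ⟨h1, h2⟩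
  exact ⟨0, Nat.zero_le _, hF h1, rfl⟩

theorem Mo_const (b : Bool) : Mo 1 {(fun _ => b : (I → Bool) → Bool)} := by
  have h := Av.const (Av.empty (I := I) (h := 0)) b
  refine Av.mono h le_rfl (fun _ => le_rfl) ?_
  rintro ⟨q, l⟩ ⟨h1, h2⟩
  have h3 : q = fun _ => b := h1
  subst h3
  exact ⟨0, Nat.zero_le _, Or.inl rfl⟩

theorem Mo_and (h : Mo s F) {f g : (I → Bool) → Bool} (hf : f ∈ F) (hg : g ∈ F) :
    Mo (s + 1) (insert (fun x => f x && g x) F) := by
  have h1 := Av.and (l := 0) h (f := f) (g := g) ⟨hf, rfl⟩ ⟨hg, rfl⟩ le_rfl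
  refine Av.mono h1 le_rfl (fun _ => le_rfl) ?_
  rintro ⟨q, l⟩ ⟨h2, h3⟩
  rcases h2 with h2 | h2
  · refine ⟨0, Nat.zero_le _, Or.inl ?_⟩
    exact Prod.ext h2 rfl
  · exact ⟨0, Nat.zero_le _, Or.inr ⟨h2, rfl⟩⟩

theorem Mo_or (h : Mo s F) {f g : (I → Bool) → Bool} (hf : f ∈ F) (hg : g ∈ F) :
    Mo (s + 1) (insert (fun x => f x || g x) F) := by
  have h1 := Av.or (l := 0) h (f := f) (g := g) ⟨hf, rfl⟩ ⟨hg, rfl⟩ le_rfl
  refine Av.mono h1 le_rfl (fun _ => le_rfl) ?_
  rintro ⟨q, l⟩ ⟨h2, h3⟩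
  rcases h2 with h2 | h2
  · refine ⟨0, Nat.zero_le _, Or.inl ?_⟩
    exact Prod.ext h2 rfl
  · exact ⟨0, Nat.zero_le _, Or.inr ⟨h2, rfl⟩⟩

end

theorem countP_eq {b B M : ℕ} (π : Fin B → Fin b → Fin M) (f : (Fin b → Bool) → Bool)
    (x : Fin M → Bool) :
    (List.ofFn fun i : Fin B => (fun y : Fin M → Bool => f (fun t => y (π i t)))).countP
      (fun g => g x) = cnt π f x := by
  unfold Pool.Agent.W2helper22.MG.cnt
  rw [List.ofFn_eq_map, List.countP_map, List.countP_eq_length_filter]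
  show _ = Multiset.card (Finset.filter _ Finset.univ).val
  rw [Finset.filter_val]
  have h1 : (Finset.univ : Finset (Fin B)).val = ↑(List.finRange B) := rfl
  rw [h1, Multiset.filter_coe, Multiset.coe_card]
  congr 1
  refine List.filter_congr fun i _ => ?_
  simp

/-- one threshold of copies of a function -/
theorem stage (hC : P_COPY) (hT : P_THRF) {b B M S s : ℕ} (π : Fin B → Fin b → Fin M)
    (f : (Fin b → Bool) → Bool) (hf : Mo S {f}) (θ : ℕ) (G : Set ((Fin M → Bool) → Bool))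
    (hG : Mo s G) :
    Mo (s + (B * S + (2 * (B + 2) + 2) * (B + 1)))
      (insert (fun x => decide (θ ≤ cnt π f x)) G) := by
  let fi : Fin B → (Fin M → Bool) → Bool := fun i y => f (fun t => y (π i t))
  have h1 : ∀ k : ℕ, k ≤ B → Mo (s + k * S) (G ∪ {g | ∃ i : Fin B, (i : ℕ) < k ∧ g = fi i}) := by
    intro k
    induction k with
    | zero =>
      intro _
      refine Mo_mono hG (by omega) ?_
      rintro g (hg | ⟨i, hi, _⟩)
      · exact hg
      · exact absurd hi (Nat.not_lt_zero _)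
    | succ k ih =>
      intro hk
      have h2 := hC (Fin b) (Fin M) S (s + k * S) {f} _ (π ⟨k, hk⟩) hf (ih (by omega))
      refine Mo_mono h2 (by rw [Nat.succ_mul]; omega) ?_
      rintro g (hg | ⟨i, hi, rfl⟩)
      · exact Or.inl (Or.inl hg)
      · rcases Nat.lt_succ_iff_lt_or_eq.1 hi with h3 | h3
        · exact Or.inl (Or.inr ⟨i, h3, rfl⟩)
        · refine Or.inr ⟨f, rfl, ?_⟩
          have h4 : i = ⟨k, hk⟩ := Fin.ext h3
          rw [h4]
  have h2 := h1 B le_rfl
  have h3 := hT (Fin M) (s + B * S) _ (List.ofFn fi) (by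
    intro g hg
    rw [List.mem_ofFn] at hg
    obtain ⟨i, rfl⟩ := hg
    exact Or.inr ⟨i, i.2, rfl⟩) h2
  rw [List.length_ofFn] at h3
  refine Mo_mono h3 (by omega) ?_
  rintro g (hg | hg)
  · refine Or.inr ⟨θ, ?_⟩
    have h5 : g = fun x => decide (θ ≤ cnt π f x) := hg
    rw [h5]
    funext x
    rw [← countP_eq π f x]
  · exact Or.inl (Or.inl hg)

theorem test : P_TEST := by
  intro hR hC hT b B M K S π F θ hF
  have hO : ∀ k : ℕ, k ≤ K → Mo (k * (B * S + (2 * (B + 2) + 2) * (B + 1) + 2) + 2)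
      {(fun x => decide (∃ j : Fin K, (j : ℕ) < k ∧ θ j ≤ cnt π (F j) x) :
        (Fin M → Bool) → Bool)} := by
    intro k
    induction k with
    | zero =>
      intro _
      refine Mo_mono (Mo_const (I := Fin M) false) (by omega) ?_
      rintro g hg
      have h1 : g = _ := hg
      rw [h1]
      refine Set.mem_singleton_iff.2 ?_
      funext x
      simp
    | succ k ih =>
      intro hk
      have h1 := stage hC hT π (F ⟨k, hk⟩) (hF _) (θ ⟨k, hk⟩) _ (ih (by omega))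
      have h2 := Mo_or h1 (Set.mem_insert_of_mem _ (Set.mem_singleton _)) (Set.mem_insert _ _)
      refine Mo_mono h2 (by rw [Nat.add_mul k 1, Nat.one_mul]; omega) ?_
      rintro g hg
      have h3 : g = _ := hg
      rw [h3]
      refine Or.inl ?_
      funext x
      rw [Bool.eq_iff_iff]
      simp only [decide_eq_true_eq, Bool.or_eq_true]
      constructor
      · rintro ⟨j, hj, h4⟩
        rcases Nat.lt_succ_iff_lt_or_eq.1 hj with h5 | h5
        · exact Or.inl ⟨j, h5, h4⟩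
        · have h6 : j = ⟨k, hk⟩ := Fin.ext h5
          rw [h6] at h4
          exact Or.inr h4
      · rintro (⟨j, hj, h4⟩ | h4)
        · exact ⟨j, Nat.lt_succ_of_lt hj, h4⟩
        · exact ⟨⟨k, hk⟩, Nat.lt_succ_self k, h4⟩
  have hA : ∀ k : ℕ, k ≤ K → Mo (k * (B * S + (2 * (B + 2) + 2) * (B + 1) + 2) + 2)
      {(fun x => decide (∀ j : Fin K, (j : ℕ) < k → θ j ≤ cnt π (F j) x) :
        (Fin M → Bool) → Bool)} := by
    intro k
    induction k with
    | zero =>
      intro _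
      refine Mo_mono (Mo_const (I := Fin M) true) (by omega) ?_
      rintro g hg
      have h1 : g = _ := hg
      rw [h1]
      refine Set.mem_singleton_iff.2 ?_
      funext x
      simp
    | succ k ih =>
      intro hk
      have h1 := stage hC hT π (F ⟨k, hk⟩) (hF _) (θ ⟨k, hk⟩) _ (ih (by omega))
      have h2 := Mo_and h1 (Set.mem_insert_of_mem _ (Set.mem_singleton _)) (Set.mem_insert _ _)
      refine Mo_mono h2 (by rw [Nat.add_mul k 1, Nat.one_mul]; omega) ?_
      rintro g hg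
      have h3 : g = _ := hg
      rw [h3]
      refine Or.inl ?_
      funext x
      rw [Bool.eq_iff_iff]
      simp only [decide_eq_true_eq, Bool.and_eq_true]
      constructor
      · intro h4
        exact ⟨fun j hj => h4 j (Nat.lt_succ_of_lt hj), h4 ⟨k, hk⟩ (Nat.lt_succ_self k)⟩
      · rintro ⟨h4, h5⟩ j hj
        rcases Nat.lt_succ_iff_lt_or_eq.1 hj with h6 | h6
        · exact h4 j h6
        · have h7 : j = ⟨k, hk⟩ := Fin.ext h6
          rw [h7]
          exact h5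
  constructor
  · obtain ⟨C, h1, h2, h3⟩ := hR M _ _ (hO K le_rfl)
    refine ⟨C, h1, h2, fun x => ?_⟩
    rw [h3]
    simp only [decide_eq_true_eq]
    exact ⟨fun ⟨j, _, h⟩ => ⟨j, h⟩, fun ⟨j, h⟩ => ⟨j, j.2, h⟩⟩
  · obtain ⟨C, h1, h2, h3⟩ := hR M _ _ (hA K le_rfl)
    refine ⟨C, h1, h2, fun x => ?_⟩
    rw [h3]
    simp only [decide_eq_true_eq]
    exact ⟨fun h j => h j j.2, fun h j _ => h j⟩

end Pool.Agent.W2helper98.MG
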